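import Pool.Agent.MP_8be872_ag.H56.GSpec

/-! Maximal minors and stability. -/

namespace Pool.Agent.MP_8be872_ag.H64

open Finset H38 H56
open MvPolynomial hiding funext

section general

theorem der_det {V P : Type} [Fintype V] [DecidableEq V] [CommRing P] [Algebra ℂ P]
    (δ : Derivation ℂ P P) (M : Matrix V V P) {a b : V} (hab : a ≠ b)
    (h : ∀ p q, δ (M p q) = if p = a then -M b q else 0) : δ M.det = 0 := by
  let ψ : P →+* DualNumber P :=
    { toFun := fun f => TrivSqZeroExt.inl f + TrivSqZeroExt.inr (δ f)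
      map_one' := by ext <;> simp
      map_mul' := fun f g => by ext <;> simp [mul_comm]
      map_zero' := by ext <;> simp
      map_add' := fun f g => by ext <;> simp }
  have e : ψ.mapMatrix M = Matrix.transvection a b (-DualNumber.eps) *
      (TrivSqZeroExt.inlHom P P).mapMatrix M := by
    ext p q : 1
    by_cases hp : p = a
    · rw [hp, Matrix.transvection_mul_apply_same]
      ext <;> simp [ψ, h]
    · rw [Matrix.transvection_mul_apply_of_ne _ _ _ _ hp]
      ext <;> simp [ψ, h, hp]
  have := ψ.map_det M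
  rw [e, Matrix.det_mul, Matrix.det_transvection_of_ne _ _ hab, one_mul, ← RingHom.map_det] at this
  simpa [ψ] using congrArg TrivSqZeroExt.snd this

variable {A V W ι : Type} [Fintype A] [Fintype V] [Fintype W] [DecidableEq A] [DecidableEq V]
  [DecidableEq W] [DecidableEq ι] {vert : V → ι}

theorem act0_mat (r : V × V) (ε : A) (p q : V ⊕ W) : act0 r (mat0 ε p q) =
    (if q = Sum.inl r.2 then mat0 ε p (Sum.inl r.1) else 0) -
      if p = Sum.inl r.1 then mat0 ε (Sum.inl r.2) q else 0 := mkDerivation_X _ _ _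

theorem act_col {c : V → Pol0 A V W} (hc : IsCol vert c) {a b : V} (h : vert a = vert b) (p : V) :
    act0 (a, b) (c p) = if p = a then -c b else 0 := by
  induction hc generalizing p with
  | base ε w j =>
    by_cases hp : p = a
    · subst hp
      by_cases hj : vert p = j
      · simp [hj, ← h, act0_mat]
      · simp [hj, ← h]
    · by_cases hj : vert p = j <;> simp [hj, hp, act0_mat]
  | step ε j c _ ih =>
    have k : act0 (a, b) (∑ q, mat0 ε (.inl p) (.inl q) * c q)
        = if p = a then -∑ q, mat0 ε (.inl b) (.inl q) * c q else 0 := by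
      simp only [map_sum, Derivation.leibniz, ih, act0_mat, smul_eq_mul, Sum.inl.injEq, mul_sub,
        mul_ite, mul_zero, sum_add_distrib, sum_sub_distrib, sum_ite_eq', mem_univ, if_true]
      by_cases hp : p = a
      · simp [hp, mul_comm, add_sub]
      · simp [hp, mul_comm]
    by_cases hp : p = a
    · subst hp
      by_cases hj : vert p = j
      · simp only [hj, ← h, if_true] at k ⊢
        exact k
      · simp [hj, ← h]
    · by_cases hj : vert p = j
      · simp only [hj, hp, if_true, if_false] at k ⊢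
        exact k
      · simp [hj, hp]

theorem wt_col (x : V ⊕ W → G) (t : A → G) (H : AddSubgroup G) (hx : ∀ b, x (.inr b) ∈ H)
    (ht : ∀ ε, t ε ∈ H) {c : V → Pol0 A V W} (hc : IsCol vert c) :
    ∃ ω ∈ H, ∀ a, c a ∈ polW0 x t (ω - x (.inl a)) := by
  have hX : ∀ ε p q, IsWeightedHomogeneous (fun c => polWt x t 0 (some c)) (mat0 ε p q)
      (-(x p - x q + t ε)) := fun ε p q =>
    isWeightedHomogeneous_X ℂ (fun c => polWt x t 0 (some c)) (ε, p, q)
  induction hc with
  | base ε b j =>
    refine ⟨x (.inr b) - t ε, H.sub_mem (hx b) (ht ε), fun a => ?_⟩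
    beta_reduce
    split_ifs
    · have := hX ε (.inl a) (.inr b)
      rwa [show -(x (.inl a) - x (.inr b) + t ε) = x (.inr b) - t ε - x (.inl a) by abel] at this
    · exact zero_mem _
  | step ε j c _ ih =>
    obtain ⟨ω, h1, h2⟩ := ih
    refine ⟨ω - t ε, H.sub_mem h1 (ht ε), fun a => ?_⟩
    beta_reduce
    split_ifs
    · refine Submodule.sum_mem _ fun b _ => ?_
      have := (hX ε (.inl a) (.inl b)).mul (h2 b)
      rwa [show -(x (.inl a) - x (.inl b) + t ε) + (ω - x (.inl b)) = ω - t ε - x (.inl a) by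
        abel] at this
    · exact zero_mem _

theorem wt_det (x : V ⊕ W → G) (t : A → G) (c : V → V → Pol0 A V W) (ω : V → G)
    (h : ∀ b a, c b a ∈ polW0 x t (ω b - x (.inl a))) :
    (Matrix.of fun a b => c b a).det ∈ polW0 x t (∑ b, ω b - ∑ a, x (.inl a)) := by
  rw [Matrix.det_apply]
  refine Submodule.sum_mem _ fun σ _ => Submodule.smul_of_tower_mem _ _ ?_
  have := IsWeightedHomogeneous.prod univ (fun i => c i (σ i)) (fun i => ω i - x (.inl (σ i)))
    fun i _ => h i (σ i)
  rwa [sum_sub_distrib, Equiv.sum_comp σ fun a => x (.inl a)] at this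

/-- The value of a vector of functions. -/
noncomputable def ev (x : Option (A × (V ⊕ W) × (V ⊕ W)) → ℂ) (c : V → Pol0 A V W) : V → ℂ :=
  fun a => eval x (emb (c a))

theorem ev_base (x : Option (A × (V ⊕ W) × (V ⊕ W)) → ℂ) (ε : A) (b : W) (j : ι) (a : V) :
    ev x (fun a => if vert a = j then mat0 ε (.inl a) (.inr b) else 0) a
      = if vert a = j then x (some (ε, .inl a, .inr b)) else 0 := by
  by_cases h : vert a = j <;> simp [ev, emb, mat0, h]

theorem ev_step (x : Option (A × (V ⊕ W) × (V ⊕ W)) → ℂ) (ε : A) (j : ι) (c : V → Pol0 A V W)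
    (a : V) : ev x (fun a => if vert a = j then ∑ b, mat0 ε (.inl a) (.inl b) * c b else 0) a
      = if vert a = j then ∑ b, x (some (ε, .inl a, .inl b)) * ev x c b else 0 := by
  by_cases h : vert a = j <;> simp [ev, emb, mat0, h]

theorem ev_det (x : Option (A × (V ⊕ W) × (V ⊕ W)) → ℂ) (c : V → V → Pol0 A V W) :
    eval x (emb (Matrix.of fun a b => c b a).det) = (Matrix.of fun a b => ev x (c b) a).det :=
  ((eval x).comp (emb : Pol0 A V W →ₐ[ℂ] Pol A V W).toRingHom).map_det _

theorem ev_conj {x x₀ : Option (A × (V ⊕ W) × (V ⊕ W)) → ℂ} {g : Matrix (V ⊕ W) (V ⊕ W) ℂ}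
    (h1 : ∀ a b, vert a ≠ vert b → g (.inl a) (.inl b) = 0)
    (h2 : ∀ p b, g p (.inr b) = (if p = .inr b then 1 else 0) ∧
      g (.inr b) p = if p = .inr b then 1 else 0)
    (h3 : ∀ ε, (Matrix.of fun p q => x (some (ε, p, q))) * g =
      g * Matrix.of fun p q => x₀ (some (ε, p, q))) {c : V → Pol0 A V W} (hc : IsCol vert c)
    (a : V) : ev x c a = ∑ b, g (.inl a) (.inl b) * ev x₀ c b := by
  have pj : ∀ (a : V) (j : ι) (y : V → ℂ), (if vert a = j then ∑ b, g (.inl a) (.inl b) * y b
      else 0) = ∑ b, g (.inl a) (.inl b) * if vert b = j then y b else 0 := fun a j y => by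
    have k : ∀ b, (g (.inl a) (.inl b) * if vert b = j then y b else 0)
        = if vert a = j then g (.inl a) (.inl b) * y b else 0 := fun b => by
      by_cases e : vert a = vert b
      · rw [e, mul_ite, mul_zero]
      · simp [h1 a b e]
    simp only [k]
    split_ifs <;> simp
  induction hc generalizing a with
  | base ε b j =>
    have := congrFun (congrFun (h3 ε) (.inl a)) (.inr b)
    simp [Matrix.mul_apply, Fintype.sum_sum_type, (h2 _ _).1] at this
    simp only [ev_base, this, pj]
  | step ε j c _ ih =>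
    have k : ∀ b, ∑ q, x (some (ε, .inl a, .inl q)) * g (.inl q) (.inl b)
        = ∑ q, g (.inl a) (.inl q) * x₀ (some (ε, .inl q, .inl b)) := fun b => by
      have := congrFun (congrFun (h3 ε) (.inl a)) (.inl b)
      simpa [Matrix.mul_apply, Fintype.sum_sum_type, (h2 _ _).1, (h2 _ _).2] using this
    simp only [ev_step, ← pj, ih, mul_sum, ← mul_assoc]
    rw [sum_comm]
    simp only [← sum_mul, k]
    simp only [sum_mul]
    rw [sum_comm]

end general

variable (Q : Quiv) (w v : Fin Q.n → ℕ)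

theorem cut1 (d : Fin Q.n → ℕ → ℤ) (x : Option (Co Q w v) → ℂ) (h : OnZ Q w v d x)
    (hs : Stable Q w v x) (a : Bas Q v) : 0 ≤ d a.1 a.2 := by
  by_contra hn
  have := hs (Submodule.pi {a | d a.1 a.2 < 0} fun _ => ⊥)
    (fun b a ha => h.1 _ fun hc => absurd hc.2 (not_le.2 ha)) fun e s y hy a ha => by
      refine sum_eq_zero fun b _ => ?_
      by_cases hb : d b.1 b.2 < 0
      · exact mul_eq_zero_of_right _ (hy b hb)
      · refine mul_eq_zero_of_left (h.1 _ fun hc => ?_) _
        have : d b.1 b.2 ≤ d a.1 a.2 := by cases s <;> exact hc.2.2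
        exact hb (this.trans_lt ha)
  have h1 : (fun _ => 1 : Bas Q v → ℂ) ∈ _ := this ▸ Submodule.mem_top
  exact one_ne_zero (h1 a (not_le.1 hn))

theorem cut2 (x : Option (Co Q w v) → ℂ) (h : OnZ Q w v 0 x) : Stable Q w v x ↔
    ∃ g, IsMinor (A := Arr Q) (W := Bas Q w) (fun a : Bas Q v => a.1) g ∧ eval x (emb g) ≠ 0 := by
  constructor
  · intro hs
    have top := hs (Submodule.span ℂ {y | ∃ c, IsCol (fun a : Bas Q v => a.1) c ∧ ev x c = y})
      (fun b => Submodule.subset_span ⟨_, .base (none, true) b b.1, funext fun a => by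
        rw [ev_base]
        split_ifs with hj
        · rfl
        · exact (h.1 ((none, true), .inl a, .inr b) fun hc => hj hc.1).symm⟩) fun e s y hy => by
      refine Submodule.span_induction (fun y hy => ?_) (by simp) (fun y z _ _ a b => ?_)
        (fun c y _ a => ?_) hy
      · obtain ⟨c, hc, rfl⟩ := hy
        have := Submodule.sum_mem _ fun j (_ : j ∈ univ) => Submodule.subset_span (R := ℂ)
          (s := {y | ∃ c, IsCol (fun a : Bas Q v => a.1) c ∧ ev x c = y})
          ⟨_, hc.step (some e, s) j, rfl⟩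
        convert this using 1
        funext a
        simp [ev_step, Matrix.mulVec, dotProduct]
      · rw [Matrix.mulVec_add]; exact add_mem a b
      · rw [Matrix.mulVec_smul]; exact Submodule.smul_mem _ c a
    obtain ⟨s, h1, h2, h3⟩ := exists_linearIndependent ℂ
      {y | ∃ c, IsCol (fun a : Bas Q v => a.1) c ∧ ev x c = y}
    let B := Module.Basis.mk h3 (by rw [Subtype.range_coe, h2, top])
    let e := (Pi.basisFun ℂ (Bas Q v)).indexEquiv B
    choose c c1 c2 using fun b => h1 (e b).2
    refine ⟨_, ⟨c, c1, rfl⟩, ?_⟩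
    rw [ev_det, ← isUnit_iff_ne_zero, ← Matrix.isUnit_iff_isUnit_det,
      ← Matrix.linearIndependent_cols_iff_isUnit]
    have := h3.comp e e.injective
    rw [show (↑) ∘ e = fun b => ev x (c b) from (funext c2).symm] at this
    exact this
  · rintro ⟨g, ⟨c, hc, rfl⟩, hg⟩ S h1 h2
    have key : ∀ c, IsCol (fun a : Bas Q v => a.1) c → ev x c ∈ S := fun c hc => by
      have pj : ∀ (y : Bas Q v → ℂ) (i j : Fin Q.n), (∀ a, a.1 ≠ i → y a = 0) → y ∈ S →
          (fun a => if a.1 = j then y a else 0) ∈ S := fun y i j hy hS => by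
        by_cases hij : j = i
        · convert hS using 2 with a
          split_ifs with ha
          · rfl
          · exact (hy a (hij ▸ ha)).symm
        · convert S.zero_mem using 2 with a
          split_ifs with ha
          · exact hy a (ha ▸ hij)
          · rfl
      induction hc with
      | base ε b j =>
        rw [funext (ev_base x ε b j)]
        by_cases hε : ε = (none, true)
        · subst hε
          exact pj _ b.1 j (fun a ha => h.1 _ fun hc => ha hc.1) (h1 b)
        · have z : (fun a => x (some (ε, .inl a, .inr b))) = 0 := funext fun a => h.1 _ (by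
            rcases ε with ⟨_ | e, _ | _⟩
            exacts [id, absurd rfl hε, id, id])
          exact pj _ j j (fun a _ => congrFun z a) (by rw [z]; exact S.zero_mem)
      | step ε j c _ ih =>
        rw [funext (ev_step x ε j c)]
        have z : ∀ s, (fun a => ∑ b, x (some ((none, s), .inl a, .inl b)) * ev x c b) = 0 :=
          fun s => funext fun a => sum_eq_zero fun b _ =>
            mul_eq_zero_of_left (h.1 _ (by cases s <;> exact id)) _
        rcases ε with ⟨_ | e, s⟩
        · exact pj _ j j (fun a _ => congrFun (z s) a) (by rw [z]; exact S.zero_mem)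
        · refine pj _ (if s then Q.hd e else Q.tl e) j (fun a ha => sum_eq_zero fun b _ =>
            mul_eq_zero_of_left (h.1 _ fun hc => ha ?_) _) (h2 e s _ ih)
          cases s <;> exact hc.1
    rw [ev_det, ← isUnit_iff_ne_zero, ← Matrix.isUnit_iff_isUnit_det] at hg
    refine top_unique fun y _ => ?_
    obtain ⟨z, rfl⟩ := Matrix.mulVec_surjective_iff_isUnit.2 hg y
    rw [Matrix.mulVec_eq_sum]
    exact S.sum_mem fun b _ => S.smul_of_tower_mem _ (key _ (hc b))

theorem cut3 (hR : RepStmt) (hO : OrbitStmt) (hl : ∀ e, Q.hd e ≠ Q.tl e)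
    (hi : InOrbit Q w fun i => v i) : ∃ F φ, Cuts Q w v F φ := by
  obtain ⟨x₀, o1, o2, o3⟩ := hO Q hl w v hi
  obtain ⟨g, ⟨c, hc, rfl⟩, hg⟩ := (cut2 Q w v x₀ o1).1 o2
  obtain ⟨-, -, r3, r4, -⟩ := hR (Arr Q) (Bas Q v) (Bas Q w) (fun _ => True) (basWt Q w v) (arrWt Q)
  let H : AddSubgroup G :=
    { carrier := {g | ∀ n, ofLex g (3 * n + 4) = 0}
      zero_mem' := fun _ => rfl
      add_mem' := fun {a b} ha hb n => by simp [ha n, hb n]
      neg_mem' := fun {a} ha n => by simp [ha n] }
  have hg' : ∀ r, r % 3 ≠ 1 ∨ r < 4 → gen r ∈ H := fun r hr n => by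
    have : r ≠ 3 * n + 4 := by omega
    simp [gen, Finsupp.single_apply, this]
  choose ω ω1 ω2 using fun b => wt_col (basWt Q w v) (arrWt Q) H (fun b => hg' _ (by omega))
    (by
      have t := hg' 1 (by omega)
      rintro ⟨_ | e, _ | _⟩
      exacts [H.neg_mem t, H.neg_mem t, H.sub_mem (H.neg_mem (hg' _ (by omega))) t,
        H.sub_mem (hg' _ (by omega)) t]) (hc b)
  refine ⟨_, _, fun h => ?_, (r4 _ _ _).2 (wt_det _ _ c ω ω2), fun a => ?_, fun r h1 h2 => ?_,
    fun x hx => ⟨fun h => (cut2 Q w v x hx).2 ⟨_, ⟨c, hc, rfl⟩, h⟩, fun h => ?_⟩⟩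
  · classical simpa using vars_rename _ _ h
  · have e1 : ofLex (∑ b, ω b) (3 * Nat.pair a.1 a.2 + 4) = 0 := H.sum_mem (fun b _ => ω1 b) _
    have e2 : ofLex (∑ b, basWt Q w v (.inl b)) (3 * Nat.pair a.1 a.2 + 4) = 1 := by
      change (∑ b : Bas Q v, Finsupp.single (3 * Nat.pair b.1 b.2 + 4) (1 : ℤ)) _ = 1
      rw [Finsupp.finset_sum_apply, sum_eq_single a (fun b _ hb => ?_) (by simp),
        Finsupp.single_eq_same]
      refine Finsupp.single_eq_of_ne fun e => hb ?_
      obtain ⟨e1, e2⟩ := Nat.pair_eq_pair.1 (by omega : Nat.pair a.1 a.2 = Nat.pair b.1 b.2)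
      obtain ⟨i, a⟩ := a
      obtain ⟨j, b⟩ := b
      obtain rfl : i = j := Fin.ext e1
      exact congrArg _ (Fin.ext e2.symm)
    rw [ofLex_sub, Finsupp.sub_apply, e1, e2, zero_sub]
  · rw [r3, der_det (act0 r) (Matrix.of fun a b => c b a) h2 fun p q => act_col (hc q) h1 p,
      map_zero]
  · obtain ⟨g, g0, g1, g2, g3⟩ := o3 x hx h
    have e : (Matrix.of fun a b => ev x (c b) a)
        = g.toBlocks₁₁ * Matrix.of fun a b => ev x₀ (c b) a := by
      ext a b
      exact ev_conj g1 g2 g3 (hc b) a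
    rw [ev_det] at hg ⊢
    rw [e, Matrix.det_mul]
    refine mul_ne_zero (fun h0 => ?_) hg
    have z : g.toBlocks₂₁ = 0 := by
      ext b a
      simp [Matrix.toBlocks₂₁, (g2 _ _).2]
    rw [Matrix.isUnit_iff_isUnit_det, ← g.fromBlocks_toBlocks, z, Matrix.det_fromBlocks_zero₂₁, h0,
      zero_mul] at g0
    exact not_isUnit_zero g0

theorem cut4 {f : Pol0 (Arr Q) (Bas Q v) (Bas Q w)} {φ : G} (h : Cuts Q w v (emb f) φ)
    (d : Fin Q.n → ℕ → ℤ) {g} (hg : IsMinor (A := Arr Q) (W := Bas Q w) (fun a : Bas Q v => a.1) g) :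
    g ∈ (lin0 Q w v d ⊔ Ideal.span ({f} ∪
      {y | ∃ r : Bas Q v × Bas Q v, r.1.1 = r.2.1 ∧ y = mom0 Q w v r})).radical := by
  rw [← vanishingIdeal_zeroLocus_eq_radical (K := ℂ)]
  intro y hy
  have e : ∀ p : Pol0 (Arr Q) (Bas Q v) (Bas Q w),
      eval (fun o : Option (Co Q w v) => o.elim 0 y) (emb p) = aeval y p := fun p =>
    eval_rename _ _ _
  have hz : OnZ Q w v 0 fun o => o.elim 0 y := ⟨fun c hc => by
    have := hy (X c) (Ideal.mem_sup_left (Ideal.subset_span ⟨c, fun h => hc ?_, rfl⟩))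
    · simpa using this
    · rcases c with ⟨⟨_ | e, _ | _⟩, a | a, b | b⟩ <;>
        first | exact h | exact ⟨h.1, le_rfl⟩ | exact ⟨h.1, h.2.1, le_rfl⟩, fun r hr => by
    rw [show mom Q w v r = emb (mom0 Q w v r) by
      simp [mom, mom0, emb, mat, mat0, Matrix.mul_apply], e]
    exact hy _ (Ideal.mem_sup_right (Ideal.subset_span (Or.inr ⟨r, hr, rfl⟩)))⟩
  by_contra hn
  refine (h.2.2.2.2 _ hz).2 ((cut2 Q w v _ hz).2 ⟨g, hg, by rwa [e]⟩) ?_
  rw [e]
  exact hy _ (Ideal.mem_sup_right (Ideal.subset_span (Or.inl rfl)))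

theorem cut : RepStmt → CutStmt := fun hR Q w v =>
  ⟨cut1 Q w v, cut2 Q w v, cut3 Q w v hR, fun _ _ h d _ e _ hg => cut4 Q w v (e ▸ h) d hg⟩

end Pool.Agent.MP_8be872_ag.H64
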